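import Pool.Agent.Q163.LZ.Count

/-!
# Automatic sequences have short descriptions
-/

set_option autoImplicit false

namespace Pool.Agent.Q163.LZ

open Finset

/-- `u` is automatic in base `k`, read from the most significant digit: there are finitely many
states, `v a` is the state after reading the digits of `a`, and the value at `k ^ j * a + i`,
`i < k ^ j`, is determined by this state and the `j` remaining digits, which are those of `i`
(the automaton may also depend on the number of the remaining digits). -/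
def Automatic (k : ℕ) (u : ℕ → ℝ) : Prop :=
  ∃ (s : ℕ) (v : ℕ → Fin s) (G : ℕ → Fin s → ℕ → ℝ),
    ∀ j a i : ℕ, 1 ≤ a → i < k ^ j → u (k ^ j * a + i) = G j (v a) i

theorem automatic_described {k : ℕ} (hk : 2 ≤ k) {u : ℕ → ℝ} (hu : Automatic k u) :
    ∃ A₀ : ℕ, ∀ A ≥ A₀, ∀ γ : ℝ, 0 ≤ γ → ∀ N : ℕ, 3 ≤ N → ∃ F : Finset ℕ,
      (F.card : ℝ) ≤ A * Real.log N ∧ Described A γ N F u := by
  classical
  obtain ⟨s, v, G, hG⟩ := hu
  -- all states which occur occur before `a₀`
  obtain ⟨a₀, ha2, ha₀⟩ : ∃ a₀ : ℕ, 2 ≤ a₀ ∧ ∀ a, 1 ≤ a → ∃ a', 1 ≤ a' ∧ a' < a₀ ∧ v a' = v a := by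
    have h1 : ∀ q : Fin s, ∃ b : ℕ, (∃ a, 1 ≤ a ∧ v a = q) → 1 ≤ b ∧ v b = q := by
      intro q
      by_cases h : ∃ a, 1 ≤ a ∧ v a = q
      · obtain ⟨a, ha⟩ := h
        exact ⟨a, fun _ => ha⟩
      · exact ⟨0, fun h' => absurd h' h⟩
    choose b hb using h1
    refine ⟨∑ q, b q + 2, by omega, fun a ha => ?_⟩
    have h2 := hb (v a) ⟨a, ha, rfl⟩
    have h3 : b (v a) ≤ ∑ q, b q := Finset.single_le_sum (fun _ _ => Nat.zero_le _) (mem_univ _)
    exact ⟨b (v a), h2.1, by omega, h2.2⟩
  refine ⟨4 * a₀ * k, fun A hA γ hγ N hN => ?_⟩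
  have hA1 : 1 ≤ A := le_trans (by nlinarith) hA
  set J := Nat.log k N with hJ
  set F : Finset ℕ := (Ico 1 a₀) ∪
    ((range (J + 1)) ×ˢ (Ico a₀ (a₀ * k))).image (fun q => k ^ q.1 * q.2) with hF
  have hmemF : ∀ j a, j ≤ J → a₀ ≤ a → a < a₀ * k → k ^ j * a ∈ F := by
    intro j a hj ha ha'
    rw [hF, mem_union]
    right
    rw [mem_image]
    exact ⟨(j, a), mem_product.2 ⟨mem_range.2 (by omega), mem_Ico.2 ⟨ha, ha'⟩⟩, rfl⟩
  have ha₀k : a₀ < a₀ * k := by nlinarith
  refine ⟨F, ?_, ?_, ?_⟩
  · -- the number of phrases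
    have h1 : F.card ≤ a₀ + (J + 1) * (a₀ * k) := by
      rw [hF]
      refine (card_union_le _ _).trans ?_
      refine Nat.add_le_add ?_ ?_
      · rw [Nat.card_Ico]; omega
      · refine card_image_le.trans ?_
        rw [card_product, card_range, Nat.card_Ico]
        exact Nat.mul_le_mul_left _ (Nat.sub_le _ _)
    have hN0 : (0 : ℝ) < N := by positivity
    have hlogN : 1 ≤ Real.log N := by
      rw [Real.le_log_iff_exp_le hN0]
      have h2 := Real.exp_one_lt_d9
      have h3 : (3 : ℝ) ≤ N := by exact_mod_cast hN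
      linarith
    have hJlog : (J : ℝ) ≤ 2 * Real.log N := by
      have h2 : (2 : ℝ) ^ J ≤ N := by
        have h3 : k ^ J ≤ N := Nat.pow_log_le_self k (by omega)
        have h4 : 2 ^ J ≤ N := (Nat.pow_le_pow_left hk J).trans h3
        exact_mod_cast h4
      have h3 := Real.log_le_log (by positivity) h2
      rw [Real.log_pow] at h3
      have h4 := Real.log_two_gt_d9
      have h5 : (0 : ℝ) ≤ J := Nat.cast_nonneg _
      nlinarith
    have h2 : (F.card : ℝ) ≤ a₀ + (J + 1) * (a₀ * k) := by exact_mod_cast h1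
    have hA' : (4 * a₀ * k : ℝ) ≤ A := by exact_mod_cast hA
    have h3 : (a₀ : ℝ) ≤ a₀ * k := by exact_mod_cast ha₀k.le
    have h4 : (0 : ℝ) ≤ a₀ * k := by positivity
    calc (F.card : ℝ) ≤ a₀ + (J + 1) * (a₀ * k) := h2
      _ ≤ a₀ * k + (2 * Real.log N + 1) * (a₀ * k) := by nlinarith
      _ = (2 * Real.log N + 2) * (a₀ * k) := by ring
      _ ≤ (4 * Real.log N) * (a₀ * k) := by nlinarith
      _ = (4 * a₀ * k) * Real.log N := by ring
      _ ≤ A * Real.log N := mul_le_mul_of_nonneg_right hA' (by linarith)
  · rw [hF, mem_union]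
    left
    rw [mem_Ico]
    omega
  · intro e he
    rw [hF, mem_union] at he
    rcases he with he | he
    · -- a letter
      rw [mem_Ico] at he
      refine ⟨0, 1, Fin.elim0, Fin.elim0, fun _ => 1, fun _ _ => u e, Nat.zero_le _, hA1,
        fun i => i.elim0, fun i => i.elim0, fun _ => Nat.one_pos, ?_, fun _ _ => rfl, ?_⟩
      · have h1 : (1 : ℝ) ≤ A := by exact_mod_cast hA1
        have h2 : 0 ≤ γ * e := by positivity
        simp only [univ_unique, sum_const, card_singleton, one_smul, Nat.cast_one]
        linarith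
      · intro n hn1 hn2 hn3
        have h1 : e + 1 ∈ F := by
          by_cases h2 : e + 1 < a₀
          · rw [hF, mem_union]
            left
            rw [mem_Ico]
            omega
          · have h3 := hmemF 0 a₀ (Nat.zero_le _) le_rfl ha₀k
            rw [pow_zero, one_mul] at h3
            have : e + 1 = a₀ := by omega
            rw [this]
            exact h3
        have h2 : n = e := by
          rcases hn3 _ h1 with h | h <;> omega
        subst h2
        simp
    · -- a block
      rw [mem_image] at he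
      obtain ⟨⟨j, a⟩, hja, rfl⟩ := he
      rw [mem_product, mem_range, mem_Ico] at hja
      obtain ⟨hj, ha1, ha2'⟩ := hja
      simp only at hj ha1 ha2'
      obtain ⟨a', h1, h2, h3⟩ := ha₀ a (by omega)
      have hkj : 1 ≤ k ^ j := Nat.one_le_pow _ _ (by omega)
      refine ⟨1, 0, fun _ => k ^ j * (a - a'), fun _ => 1, Fin.elim0, Fin.elim0, hA1,
        Nat.zero_le _, fun x y _ => Subsingleton.elim x y, ?_, fun i => i.elim0, ?_,
        fun i => i.elim0, ?_⟩
      · intro _
        refine ⟨Nat.mul_pos (by omega) (by omega), ?_⟩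
        exact Nat.mul_lt_mul_of_pos_left (by omega) (by omega)
      · have h4 : (0 : ℝ) ≤ γ * ((k ^ j * a : ℕ) : ℝ) := by positivity
        have h5 : (0 : ℝ) ≤ A := Nat.cast_nonneg _
        simp only [univ_eq_empty, sum_empty, Nat.cast_zero]
        linarith
      · intro n hn1 hn2 hn3
        simp only at hn1 hn3
        have hlt : n < k ^ j * (a + 1) := by
          by_cases h4 : a + 1 < a₀ * k
          · rcases hn3 _ (hmemF j (a + 1) (by omega) (by omega) h4) with h | h
            · have : k ^ j * a < k ^ j * (a + 1) :=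
                Nat.mul_lt_mul_of_pos_left (by omega) (by omega)
              omega
            · exact h
          · have h5 : a + 1 = a₀ * k := by omega
            rw [h5]
            by_cases h6 : j + 1 ≤ J
            · have h7 : k ^ j * (a₀ * k) = k ^ (j + 1) * a₀ := by rw [pow_succ]; ring
              rw [h7]
              rcases hn3 _ (hmemF (j + 1) a₀ h6 le_rfl ha₀k) with h | h
              · exfalso
                rw [← h7, ← h5] at h
                have : k ^ j * a < k ^ j * (a + 1) :=
                  Nat.mul_lt_mul_of_pos_left (by omega) (by omega)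
                omega
              · exact h
            · have h7 : j = J := by omega
              have h8 : N < k ^ (J + 1) := Nat.lt_pow_succ_log_self (by omega) N
              have h9 : k ^ (J + 1) * 1 ≤ k ^ (J + 1) * a₀ := Nat.mul_le_mul_left _ (by omega)
              have h10 : k ^ j * (a₀ * k) = k ^ (J + 1) * a₀ := by rw [h7, pow_succ]; ring
              omega
        obtain ⟨i, rfl⟩ : ∃ i, n = k ^ j * a + i := ⟨n - k ^ j * a, by omega⟩
        have hi : i < k ^ j := by
          have : k ^ j * (a + 1) = k ^ j * a + k ^ j := by ring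
          omega
        have e1 := hG j a i (by omega) hi
        have e2 := hG j a' i h1 hi
        have e3 : k ^ j * a + i - k ^ j * (a - a') = k ^ j * a' + i := by
          have h4 : k ^ j * (a - a') = k ^ j * a - k ^ j * a' := Nat.mul_sub _ _ _
          have h5 : k ^ j * a' ≤ k ^ j * a := Nat.mul_le_mul_left _ (by omega)
          omega
        simp only [univ_unique, sum_singleton, univ_eq_empty, sum_empty, add_zero, one_mul]
        rw [e1, e3, e2, h3]

end Pool.Agent.Q163.LZ
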