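import Pool.Agent.H352.Win.Expansion

/-!
# Digits of algebraic numbers and words with short descriptions
-/

set_option autoImplicit false

namespace Pool.Agent.Q163.LZ

open Finset

/-- `F` is the set of the first places of the phrases. In the phrase which starts at the place
`e` and ends before the next element of `F`, the word `u` is a fixed linear combination of at most
`A` of its own shifts by at most `e - 1` places to the right and of at most `A` periodic
sequences whose periods add up to at most `A + γ e`. -/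
def Phrase (A : ℕ) (γ : ℝ) (N : ℕ) (F : Finset ℕ) (u : ℕ → ℝ) (e : ℕ) : Prop :=
  ∃ (D E : ℕ) (h : Fin D → ℕ) (lam : Fin D → ℝ) (p : Fin E → ℕ) (f : Fin E → ℕ → ℝ),
    D ≤ A ∧ E ≤ A ∧ Function.Injective h ∧ (∀ j, 1 ≤ h j ∧ h j < e) ∧ (∀ l, 0 < p l) ∧
    ((∑ l, p l : ℕ) : ℝ) ≤ A + γ * e ∧ (∀ l n, f l (n + p l) = f l n) ∧
    ∀ n, e ≤ n → n ≤ N → (∀ g ∈ F, g ≤ e ∨ n < g) →
      u n = ∑ j, lam j * u (n - h j) + ∑ l, f l n

/-- the word `u 1, …, u N` has a description with the starting places `F` -/
def Described (A : ℕ) (γ : ℝ) (N : ℕ) (F : Finset ℕ) (u : ℕ → ℝ) : Prop :=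
  1 ∈ F ∧ ∀ e ∈ F, Phrase A γ N F u e

/-- One scale: if there are few phrases between `m` and `4 T m` then there are many errors. -/
theorem scale {A K T M : ℕ} {γ : ℝ} {c : ℕ → ℤ} (hT : 1 ≤ T)
    (hγ0 : 0 ≤ γ) (hγ : γ * (16 * T * (K + 1)) ≤ 1)
    (hW : ∀ D ≤ A, ∀ E ≤ A, ∀ m : ℕ, M ≤ m → ∀ t : Fin (D + 1) → ℕ, Function.Injective t →
      (∀ j, t j ≤ 4 * T * m) → ∀ lam : Fin (D + 1) → ℝ, lam ≠ 0 → ∀ p : Fin E → ℕ,
      (∀ l, 0 < p l) → ((∑ l, p l : ℕ) : ℝ) ≤ (1 - 1 / 2) * m / (K + 1) →
      ∀ f : Fin E → ℕ → ℝ, (∀ l n, f l (n + p l) = f l n) →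
      K < ((Finset.range m).filter
        (fun i => ∑ j, lam j * (c (t j + i + 1) : ℝ) ≠ ∑ l, f l i)).card)
    {N : ℕ} {F : Finset ℕ} {u : ℕ → ℝ} (hu : Described A γ N F u)
    {m : ℕ} (hm : M ≤ m) (hmA : 4 * A * (K + 1) ≤ m) (hm1 : 1 ≤ m) (hmN : 4 * T * m ≤ N)
    (hF : (F.filter fun e => m < e ∧ e ≤ 4 * T * m).card < T) :
    K < (A + 1) * ((Ioc m (4 * T * m)).filter fun n => (c n : ℝ) ≠ u n).card := by
  classical
  -- a stretch without starting places
  obtain ⟨i₀, hi₀, hfree⟩ : ∃ i < T, ∀ e ∈ F, ¬ (2 * T * m + 2 * i * m < e ∧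
      e ≤ 2 * T * m + 2 * i * m + 2 * m) := by
    by_contra hcon
    push Not at hcon
    choose! φ hφ1 hφ2 hφ3 using hcon
    have h1 : (range T).card ≤ (F.filter fun e => m < e ∧ e ≤ 4 * T * m).card := by
      refine card_le_card_of_injOn φ ?_ ?_
      · intro i hi
        have hi' : i < T := mem_range.1 (by simpa using hi)
        have a1 := hφ1 i hi'
        have a2 := hφ2 i hi'
        have a3 := hφ3 i hi'
        have b1 : (i + 1) * m ≤ T * m := Nat.mul_le_mul_right _ hi'
        have b2 : 1 * m ≤ T * m := Nat.mul_le_mul_right _ hT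
        have b3 : (i + 1) * m = i * m + m := by ring
        have b4 : 2 * T * m = 2 * (T * m) := by ring
        have b5 : 4 * T * m = 4 * (T * m) := by ring
        have b6 : 2 * i * m = 2 * (i * m) := by ring
        rw [b4, b6] at a2 a3
        rw [mem_coe, mem_filter, b5]
        exact ⟨a1, by omega, by omega⟩
      · intro i hi j hj hij
        have hi' : i < T := mem_range.1 (by simpa using hi)
        have hj' : j < T := mem_range.1 (by simpa using hj)
        have a2 := hφ2 i hi'
        have a3 := hφ3 i hi'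
        have c2 := hφ2 j hj'
        have c3 := hφ3 j hj'
        rw [hij] at a2 a3
        rcases lt_trichotomy i j with h | h | h
        · have b1 : (i + 1) * m ≤ j * m := Nat.mul_le_mul_right _ h
          have b3 : (i + 1) * m = i * m + m := by ring
          have b6 : 2 * i * m = 2 * (i * m) := by ring
          have b7 : 2 * j * m = 2 * (j * m) := by ring
          omega
        · exact h
        · have b1 : (j + 1) * m ≤ i * m := Nat.mul_le_mul_right _ h
          have b3 : (j + 1) * m = j * m + m := by ring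
          have b6 : 2 * i * m = 2 * (i * m) := by ring
          have b7 : 2 * j * m = 2 * (j * m) := by ring
          omega
    rw [card_range] at h1
    omega
  set g : ℕ := 2 * T * m + 2 * i₀ * m with hg
  have hg1 : m ≤ g := by
    have b2 : 1 * m ≤ T * m := Nat.mul_le_mul_right _ hT
    have b4 : 2 * T * m = 2 * (T * m) := by ring
    omega
  have hg2 : g + 2 * m ≤ 4 * T * m := by
    have b1 : (i₀ + 1) * m ≤ T * m := Nat.mul_le_mul_right _ hi₀
    have b3 : (i₀ + 1) * m = i₀ * m + m := by ring
    have b4 : 2 * T * m = 2 * (T * m) := by ring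
    have b5 : 4 * T * m = 4 * (T * m) := by ring
    have b6 : 2 * i₀ * m = 2 * (i₀ * m) := by ring
    omega
  -- the phrase
  obtain ⟨hF1, hph⟩ := hu
  have hne : (F.filter fun e => e ≤ g).Nonempty :=
    ⟨1, mem_filter.2 ⟨hF1, by omega⟩⟩
  set e := (F.filter fun e => e ≤ g).max' hne with he
  have heF : e ∈ F.filter fun e => e ≤ g := max'_mem _ _
  rw [mem_filter] at heF
  obtain ⟨D, E, h, lam, p, f, hD, hE, hinj, hh, hp, hps, hf, hrel⟩ := hph e heF.1
  have hmax : ∀ e' ∈ F, e' ≤ e ∨ g + 2 * m < e' := by
    intro e' he'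
    by_cases h1 : e' ≤ g
    · left
      exact le_max' _ _ (mem_filter.2 ⟨he', h1⟩)
    · right
      have := hfree e' he'
      omega
  have hrel' : ∀ n, g < n → n ≤ g + 2 * m →
      u n = ∑ j, lam j * u (n - h j) + ∑ l, f l n := by
    intro n hn1 hn2
    refine hrel n (by omega) (by omega) fun e' he' => ?_
    rcases hmax e' he' with h1 | h1
    · exact .inl h1
    · exact .inr (by omega)
  -- the windows
  set t : Fin (D + 1) → ℕ := Fin.cons (g + m) (fun j => g + m - h j) with ht
  have hhg : ∀ j, h j < g := fun j => lt_of_lt_of_le (hh j).2 heF.2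
  have htinj : Function.Injective t := by
    rw [ht, Fin.cons_injective_iff]
    refine ⟨?_, ?_⟩
    · rintro ⟨j, hj⟩
      have h1 := hhg j
      have h2 := (hh j).1
      simp only at hj
      omega
    · intro i j hij
      have h1 := hhg i
      have h2 := hhg j
      simp only at hij
      exact hinj (by omega)
  have htle : ∀ j, t j ≤ 4 * T * m := by
    intro j
    refine Fin.cases ?_ (fun j => ?_) j
    · simp only [ht, Fin.cons_zero]
      omega
    · simp only [ht, Fin.cons_succ]
      omega
  set lam' : Fin (D + 1) → ℝ := Fin.cons 1 (fun j => - lam j) with hlam'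
  have hlam0 : lam' ≠ 0 := by
    intro h0
    have := congrFun h0 0
    simp [hlam'] at this
  have hKpos : (0 : ℝ) < K + 1 := by positivity
  have hps' : ((∑ l, p l : ℕ) : ℝ) ≤ (1 - 1 / 2) * m / (K + 1) := by
    refine hps.trans ?_
    rw [le_div_iff₀ hKpos]
    have e1 : (e : ℝ) ≤ 4 * T * m := by
      have : e ≤ 4 * T * m := by omega
      exact_mod_cast this
    have e2 : (4 * A * (K + 1) : ℝ) ≤ m := by exact_mod_cast hmA
    have hm0 : (0 : ℝ) ≤ m := Nat.cast_nonneg m
    have e3 : γ * e ≤ γ * (4 * T * m) := mul_le_mul_of_nonneg_left e1 hγ0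
    have e4 : γ * (4 * T * m) * (K + 1) ≤ m / 4 := by
      have : γ * (4 * T * m) * (K + 1) = (γ * (16 * T * (K + 1))) * m / 4 := by ring
      rw [this]
      have := mul_le_mul_of_nonneg_right hγ hm0
      linarith
    have e5 : γ * e * (K + 1) ≤ γ * (4 * T * m) * (K + 1) :=
      mul_le_mul_of_nonneg_right e3 hKpos.le
    nlinarith
  have hw := hW D hD E hE m hm t htinj htle lam' hlam0 p hp hps'
    (fun l i => f l (g + m + i + 1)) (by
      intro l n
      have : g + m + (n + p l) + 1 = (g + m + n + 1) + p l := by ring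
      simp only [this, hf])
  -- every failure is near an error
  set S := (Ioc m (4 * T * m)).filter fun n => (c n : ℝ) ≠ u n with hS
  have hsub : ((range m).filter (fun i => ∑ j, lam' j * (c (t j + i + 1) : ℝ) ≠
      ∑ l, f l (g + m + i + 1))) ⊆
      (univ : Finset (Fin (D + 1))).biUnion fun j =>
        (range m).filter fun i => t j + i + 1 ∈ S := by
    intro i hi
    rw [mem_filter, mem_range] at hi
    rw [mem_biUnion]
    by_contra hcon
    push Not at hcon
    apply hi.2
    have hc : ∀ j, (c (t j + i + 1) : ℝ) = u (t j + i + 1) := by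
      intro j
      have h1 := hcon j (mem_univ _)
      rw [mem_filter, mem_range] at h1
      by_contra h2
      refine h1 ⟨hi.1, ?_⟩
      rw [hS, mem_filter, mem_Ioc]
      refine ⟨⟨?_, ?_⟩, h2⟩
      · revert j
        intro j
        refine Fin.cases ?_ (fun j => ?_) j
        · intros
          simp only [ht, Fin.cons_zero]
          omega
        · intros
          simp only [ht, Fin.cons_succ]
          have := hhg j
          omega
      · revert j
        intro j
        refine Fin.cases ?_ (fun j => ?_) j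
        · intros
          simp only [ht, Fin.cons_zero]
          omega
        · intros
          simp only [ht, Fin.cons_succ]
          have := hhg j
          omega
    have h2 := hrel' (g + m + i + 1) (by omega) (by omega)
    rw [Fin.sum_univ_succ]
    simp only [ht, hlam', Fin.cons_zero, Fin.cons_succ]
    have h3 := hc 0
    simp only [ht, Fin.cons_zero] at h3
    rw [h3, h2]
    have h4 : ∀ j : Fin D, - lam j * (c (g + m - h j + i + 1) : ℝ) =
        - (lam j * u (g + m + i + 1 - h j)) := by
      intro j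
      have h5 := hc j.succ
      simp only [ht, Fin.cons_succ] at h5
      have h6 : g + m - h j + i + 1 = g + m + i + 1 - h j := by
        have := hhg j
        omega
      rw [h5, h6]
      ring
    rw [Finset.sum_congr rfl fun j _ => h4 j, Finset.sum_neg_distrib]
    ring
  have hcard : ((range m).filter (fun i => ∑ j, lam' j * (c (t j + i + 1) : ℝ) ≠
      ∑ l, f l (g + m + i + 1))).card ≤ (D + 1) * S.card := by
    refine (card_le_card hsub).trans ((card_biUnion_le_card_mul _ _ S.card ?_).trans ?_)
    · intro j _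
      refine card_le_card_of_injOn (fun i => t j + i + 1) ?_ ?_
      · intro i hi
        rw [mem_coe, mem_filter] at hi
        exact hi.2
      · intro a _ b _ hab
        simp only at hab
        omega
    · rw [card_univ, Fintype.card_fin]
  calc K < _ := hw
    _ ≤ (D + 1) * S.card := hcard
    _ ≤ (A + 1) * S.card := Nat.mul_le_mul_right _ (by omega)

end Pool.Agent.Q163.LZ
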