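import Pool.Agent.Q163.LZ.Core

/-!
# Digits of algebraic numbers and words with short descriptions: all scales
-/

set_option autoImplicit false

namespace Pool.Agent.Q163.LZ

open Finset

theorem sum_scales (F : Finset ℕ) {R : ℕ} (hR : 2 ≤ R) (G : Finset ℕ) :
    ∑ j ∈ G, (F.filter fun e => R ^ j < e ∧ e ≤ R ^ (j + 1)).card ≤ F.card := by
  classical
  rw [← card_biUnion]
  · refine card_le_card fun e he => ?_
    rw [mem_biUnion] at he
    obtain ⟨j, -, hj⟩ := he
    exact (mem_filter.1 hj).1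
  · intro i _ j _ hij
    simp only [Function.onFun]
    rw [Finset.disjoint_left]
    intro e he he'
    rw [mem_filter] at he he'
    rcases lt_or_gt_of_ne hij with h | h
    · have := Nat.pow_le_pow_right (by omega : 0 < R) (show i + 1 ≤ j from h)
      omega
    · have := Nat.pow_le_pow_right (by omega : 0 < R) (show j + 1 ≤ i from h)
      omega

theorem main (r : ℕ) (hr : 2 ≤ r) (x : ℝ) (hx : IsAlgebraic ℚ x) (hirr : Irrational x)
    (A B : ℕ) : ∃ γ : ℝ, 0 < γ ∧ ∃ N₀ : ℕ, ∀ c : ℕ → ℤ, (∀ n, 1 ≤ n → |c n| ≤ B) →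
      HasSum (fun n : ℕ => (c n : ℝ) / (r : ℝ) ^ n) x → ∀ N ≥ N₀, ∀ (u : ℕ → ℝ) (F : Finset ℕ),
      (F.card : ℝ) ≤ A * Real.log N → Described A γ N F u →
      A * Real.log N ≤ (((Icc 1 N).filter fun n => (c n : ℝ) ≠ u n).card : ℝ) := by
  classical
  obtain ⟨k, hk⟩ : ∃ k : ℕ, k = 64 * (A + 1) := ⟨_, rfl⟩
  obtain ⟨T, hT⟩ : ∃ T : ℕ, T = k ^ 2 := ⟨_, rfl⟩
  obtain ⟨Q, hQ⟩ : ∃ Q : ℕ, Q = 8 * (A + 1) * k := ⟨_, rfl⟩
  obtain ⟨K, hK⟩ : ∃ K : ℕ, K = (A + 1) * Q := ⟨_, rfl⟩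
  have hk1 : 1 ≤ k := by omega
  have hT1 : 1 ≤ T := by rw [hT]; exact Nat.one_le_pow _ _ hk1
  have hTR : (0 : ℝ) < T := by positivity
  set R : ℕ := 4 * T with hR
  have hR2 : 2 ≤ R := by omega
  -- the logarithm of `R`
  have hlogR : Real.log R ≤ 4 * k := by
    have h1 : (R : ℝ) = (2 * k) ^ 2 := by rw [hR, hT]; push_cast; ring
    rw [h1, Real.log_pow]
    have h2 : (0 : ℝ) < 2 * k := by positivity
    have h3 := Real.log_le_sub_one_of_pos h2
    push_cast
    linarith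
  -- the constants of the window theorem
  choose M₀ hM₀ using fun (D E : ℕ) =>
    Pool.Agent.H352.Win.expansion r hr x hx hirr B (D + 1) E K (4 * T) (1 / 2) (by norm_num)
  set M : ℕ := ∑ D ∈ range (A + 1), ∑ E ∈ range (A + 1), M₀ D E with hM
  have hMle : ∀ D ≤ A, ∀ E ≤ A, M₀ D E ≤ M := by
    intro D hD E hE
    rw [hM]
    calc M₀ D E ≤ ∑ E ∈ range (A + 1), M₀ D E :=
          Finset.single_le_sum (fun _ _ => Nat.zero_le _) (mem_range.2 (by omega))
      _ ≤ _ := Finset.single_le_sum (f := fun D => ∑ E ∈ range (A + 1), M₀ D E)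
          (fun _ _ => Nat.zero_le _) (mem_range.2 (by omega))
  set j₀ : ℕ := M + 4 * A * (K + 1) with hj₀
  refine ⟨1 / (16 * T * (K + 1)), by positivity, R ^ (4 * (j₀ + 1)), ?_⟩
  intro c hcB hsum N hN u F hFc hdes
  have hN1 : 1 ≤ N := le_trans (Nat.one_le_pow _ _ (by omega)) hN
  set J : ℕ := Nat.log R N with hJ
  have hJN : R ^ J ≤ N := Nat.pow_log_le_self R (by omega)
  have hNJ : N < R ^ (J + 1) := Nat.lt_pow_succ_log_self (by omega) N
  have hJ0 : 4 * (j₀ + 1) ≤ J := by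
    rw [hJ]
    exact Nat.le_log_of_pow_le (by omega) hN
  have hlogN : Real.log N ≤ (J + 1) * (4 * k) := by
    have h1 : (N : ℝ) ≤ (R : ℝ) ^ (J + 1) := by exact_mod_cast hNJ.le
    have h2 := Real.log_le_log (by exact_mod_cast hN1 : (0 : ℝ) < N) h1
    rw [Real.log_pow] at h2
    push_cast at h2
    refine h2.trans ?_
    exact mul_le_mul_of_nonneg_left hlogR (by positivity)
  -- good scales
  set G : Finset ℕ := (Ico j₀ J).filter fun j =>
    (F.filter fun e => R ^ j < e ∧ e ≤ R ^ (j + 1)).card < T with hG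
  have hgood : ∀ j ∈ G, Q ≤ (((Icc 1 N).filter fun n => (c n : ℝ) ≠ u n).filter
      fun e => R ^ j < e ∧ e ≤ R ^ (j + 1)).card := by
    intro j hj
    rw [hG, mem_filter, mem_Ico] at hj
    obtain ⟨⟨hj1, hj2⟩, hj3⟩ := hj
    have hjj : j < R ^ j := Nat.lt_pow_self (by omega)
    have hRj : R ^ (j + 1) ≤ N :=
      (Nat.pow_le_pow_right (by omega) (by omega : j + 1 ≤ J)).trans hJN
    have hRm : 4 * T * R ^ j = R ^ (j + 1) := by rw [pow_succ, hR]; ring
    have h := scale (A := A) (K := K) (T := T) (M := M) (c := c) (m := R ^ j) hT1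
      (γ := 1 / (16 * T * (K + 1))) (by positivity)
      (by
        have : (16 * T * (K + 1) : ℝ) ≠ 0 := by positivity
        rw [one_div, inv_mul_cancel₀ this])
      (fun D hD E hE m hm => hM₀ D E c hcB hsum m ((hMle D hD E hE).trans hm)) hdes
      (by omega) (by omega) (Nat.one_le_pow _ _ (by omega)) (by rw [hRm]; exact hRj)
      (by rw [hRm]; exact hj3)
    rw [hRm, hK] at h
    have h2 : Q < ((Ioc (R ^ j) (R ^ (j + 1))).filter fun n => (c n : ℝ) ≠ u n).card :=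
      Nat.lt_of_mul_lt_mul_left h
    refine h2.le.trans (card_le_card fun n hn => ?_)
    rw [mem_filter, mem_Ioc] at hn
    rw [mem_filter, mem_filter, mem_Icc]
    exact ⟨⟨⟨by omega, by omega⟩, hn.2⟩, hn.1⟩
  -- the number of good scales
  have hbad : T * ((Ico j₀ J).filter fun j =>
      ¬ (F.filter fun e => R ^ j < e ∧ e ≤ R ^ (j + 1)).card < T).card ≤ F.card := by
    refine le_trans ?_ (sum_scales F hR2 ((Ico j₀ J).filter fun j =>
      ¬ (F.filter fun e => R ^ j < e ∧ e ≤ R ^ (j + 1)).card < T))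
    rw [mul_comm, ← smul_eq_mul]
    refine Finset.card_nsmul_le_sum _ _ _ fun j hj => ?_
    rw [mem_filter] at hj
    omega
  have htot : G.card + ((Ico j₀ J).filter fun j =>
      ¬ (F.filter fun e => R ^ j < e ∧ e ≤ R ^ (j + 1)).card < T).card = J - j₀ := by
    rw [hG, Finset.card_filter_add_card_filter_not, Nat.card_Ico]
  set b := ((Ico j₀ J).filter fun j =>
      ¬ (F.filter fun e => R ^ j < e ∧ e ≤ R ^ (j + 1)).card < T).card with hb
  have hbR : (b : ℝ) ≤ (J + 1) / 16 := by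
    have h1 : (T : ℝ) * b ≤ A * ((J + 1) * (4 * k)) := by
      calc (T : ℝ) * b ≤ F.card := by exact_mod_cast hbad
        _ ≤ A * Real.log N := hFc
        _ ≤ _ := mul_le_mul_of_nonneg_left hlogN (Nat.cast_nonneg _)
    have h2 : (T : ℝ) = k * k := by rw [hT]; push_cast; ring
    have hkR : (0 : ℝ) < k := by exact_mod_cast hk1
    have h3 : (k : ℝ) * b ≤ A * ((J + 1) * 4) := by
      rw [h2] at h1
      have h4 : (k : ℝ) * (k * b) ≤ k * (A * ((J + 1) * 4)) := by nlinarith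
      exact le_of_mul_le_mul_left h4 hkR
    have h5 : (k : ℝ) = 64 * (A + 1) := by rw [hk]; push_cast; ring
    have hA0 : (0 : ℝ) ≤ A := Nat.cast_nonneg _
    have hJ0' : (0 : ℝ) ≤ J := Nat.cast_nonneg _
    rw [h5] at h3
    have hb0 : (0 : ℝ) ≤ b := Nat.cast_nonneg _
    have h6 : (64 * ((A : ℝ) + 1)) * b ≤ (64 * ((A : ℝ) + 1)) * ((J + 1) / 16) := by nlinarith
    exact le_of_mul_le_mul_left h6 (by positivity)
  have hGR : ((J : ℝ) + 1) / 2 ≤ G.card := by
    have h1 : (G.card : ℝ) + b = J - j₀ := by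
      have h2 : j₀ ≤ J := by omega
      have h3 : G.card + b + j₀ = J := by omega
      have h4 : (G.card : ℝ) + b + j₀ = J := by exact_mod_cast h3
      linarith
    have h5 : 4 * ((j₀ : ℝ) + 1) ≤ J := by exact_mod_cast hJ0
    linarith
  have hfin : Q * G.card ≤ ((Icc 1 N).filter fun n => (c n : ℝ) ≠ u n).card := by
    refine le_trans ?_ (sum_scales _ hR2 G)
    rw [mul_comm, ← smul_eq_mul]
    exact Finset.card_nsmul_le_sum _ _ _ hgood
  have hfinR : (Q : ℝ) * G.card ≤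
      (((Icc 1 N).filter fun n => (c n : ℝ) ≠ u n).card : ℝ) := by exact_mod_cast hfin
  refine le_trans ?_ hfinR
  have hQR : (Q : ℝ) = 8 * (A + 1) * k := by rw [hQ]; push_cast; ring
  have hA0 : (0 : ℝ) ≤ A := Nat.cast_nonneg _
  have hk0 : (0 : ℝ) ≤ k := Nat.cast_nonneg _
  calc (A : ℝ) * Real.log N ≤ A * ((J + 1) * (4 * k)) :=
        mul_le_mul_of_nonneg_left hlogN hA0
    _ ≤ (8 * (A + 1) * k) * ((J + 1) / 2) := by
        have : 0 ≤ (k : ℝ) * (J + 1) := by positivity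
        nlinarith
    _ ≤ Q * G.card := by
        rw [hQR]
        exact mul_le_mul_of_nonneg_left hGR (by positivity)

end Pool.Agent.Q163.LZ
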